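import Pool.Agent.Y16.AF.StmB

/-! Project AF, second part: the third part of the coefficient converges. -/

set_option autoImplicit false

open MeasureTheory Matrix Filter
open scoped Topology

namespace Pool.Agent.Y681.AF

open Pool.Agent.Y16.AF

/-- the symbol of the Laplacian -/
noncomputable def sL (x : Fin 3 → ℝ) : ℝ := ∑ j, (2 - 2 * Real.cos (x j))

/-- the function of the Riemann sum -/
noncomputable def hL (x : Fin 3 → ℝ) : ℝ := 1 / Real.sqrt (sL x * (4 + sL x))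

theorem sL_nonneg (x : Fin 3 → ℝ) : 0 ≤ sL x :=
  Finset.sum_nonneg fun j _ => by have := Real.cos_le_one (x j); linarith

/-- Jordan's inequality. -/
theorem jordan {y : ℝ} (hy : |y| ≤ Real.pi) : y ^ 2 ≤ Real.pi ^ 2 / 4 * (2 - 2 * Real.cos y) := by
  have hpi := Real.pi_pos
  have h1 : 2 - 2 * Real.cos y = 4 * Real.sin (|y| / 2) ^ 2 := by
    have h2 : Real.cos y = 2 * Real.cos (|y| / 2) ^ 2 - 1 := by
      rw [← Real.cos_abs y, ← Real.cos_two_mul]
      congr 1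
      ring
    rw [h2, Real.cos_sq']
    ring
  have h3 : 2 / Real.pi * (|y| / 2) ≤ Real.sin (|y| / 2) :=
    Real.mul_le_sin (by positivity) (by linarith)
  have h4 : 0 ≤ 2 / Real.pi * (|y| / 2) := by positivity
  have h5 := mul_self_le_mul_self h4 h3
  rw [h1, ← sq_abs y]
  have h6 : 2 / Real.pi * (|y| / 2) = |y| / Real.pi := by ring
  rw [h6] at h5
  have h7 : |y| ^ 2 = Real.pi ^ 2 * (|y| / Real.pi * (|y| / Real.pi)) := by
    field_simp
  rw [h7]
  nlinarith [sq_nonneg Real.pi]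

theorem sL_ge {x : Fin 3 → ℝ} (hx : ∀ j, |x j| ≤ Real.pi) :
    ∑ j, x j ^ 2 ≤ Real.pi ^ 2 / 4 * sL x := by
  unfold sL
  rw [Finset.mul_sum]
  exact Finset.sum_le_sum fun j _ => jordan (hx j)

theorem sum_pos {x : Fin 3 → ℝ} (h0 : x ≠ 0) : 0 < ∑ j, x j ^ 2 := by
  obtain ⟨j, hj⟩ := Function.ne_iff.1 h0
  refine Finset.sum_pos' (fun i _ => sq_nonneg _) ⟨j, Finset.mem_univ j, ?_⟩
  exact pow_pos_of_pos_abs hj
where
  pow_pos_of_pos_abs {a : ℝ} (h : a ≠ (0 : Fin 3 → ℝ) 0) : 0 < a ^ 2 := by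
    have : a ≠ 0 := h
    positivity

theorem sL_pos {x : Fin 3 → ℝ} (hx : ∀ j, |x j| ≤ Real.pi) (h0 : x ≠ 0) : 0 < sL x := by
  have h1 := sum_pos h0
  have h2 := sL_ge hx
  have h3 : 0 < Real.pi ^ 2 / 4 := by have := Real.pi_pos; positivity
  by_contra h
  push Not at h
  nlinarith

theorem cont_sL : Continuous sL := by
  unfold sL
  fun_prop

theorem cont_hL : ContinuousOn hL ({x | ∀ j, |x j| ≤ Real.pi} \ {0}) := by
  intro x hx
  have h1 : 0 < sL x := sL_pos hx.1 hx.2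
  refine ContinuousAt.continuousWithinAt ?_
  unfold hL
  refine ContinuousAt.div continuousAt_const ?_ ?_
  · exact (Real.continuous_sqrt.comp (cont_sL.mul (continuous_const.add cont_sL))).continuousAt
  · exact (Real.sqrt_pos.2 (by positivity)).ne'

theorem bd_hL {x : Fin 3 → ℝ} (hx : ∀ j, |x j| ≤ Real.pi) (h0 : x ≠ 0) :
    |hL x| ≤ 5 / ∑ j, x j ^ 2 := by
  have h1 := sL_pos hx h0
  have h2 := sum_pos h0
  have h3 := sL_ge hx
  have hpi : Real.pi ^ 2 < 10 := by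
    have := Real.pi_lt_d2
    have := Real.pi_pos
    nlinarith
  have h4 : ∑ j, x j ^ 2 ≤ 3 * Real.pi ^ 2 := by
    have : ∀ j ∈ (Finset.univ : Finset (Fin 3)), x j ^ 2 ≤ Real.pi ^ 2 := fun j _ => by
      rw [← sq_abs]
      exact pow_le_pow_left₀ (abs_nonneg _) (hx j) 2
    refine (Finset.sum_le_sum this).trans (le_of_eq ?_)
    simp
  obtain ⟨q, hq⟩ : ∃ q, q = ∑ j, x j ^ 2 := ⟨_, rfl⟩
  obtain ⟨s, hs⟩ : ∃ s, s = sL x := ⟨_, rfl⟩
  unfold hL
  rw [← hq] at h2 h3 h4 ⊢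
  rw [← hs] at h1 h3 ⊢
  have h5 : 0 < s * (4 + s) := by positivity
  rw [abs_of_pos (by positivity), div_le_div_iff₀ (Real.sqrt_pos.2 h5) h2, one_mul]
  have h6 : q / 5 ≤ Real.sqrt (s * (4 + s)) := by
    refine Real.le_sqrt_of_sq_le ?_
    have a1 : q ≤ 5 / 2 * s := by nlinarith
    have a2 : q ≤ 30 := by nlinarith
    have a3 : q ^ 2 ≤ 30 * (5 / 2 * s) := by nlinarith
    nlinarith
  linarith

/-- the energies and the symbol -/
theorem sinh_eq {w s : ℝ} (hw : 0 < w) (h : 2 * Real.cosh w - 2 = s) :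
    2 * Real.sinh w = Real.sqrt (s * (4 + s)) := by
  have h1 : 0 < Real.sinh w := Real.sinh_pos_iff.2 hw
  have h2 : Real.cosh w ^ 2 = Real.sinh w ^ 2 + 1 := Real.cosh_sq w
  have h3 : Real.cosh w = 1 + s / 2 := by linarith
  have h4 : s * (4 + s) = (2 * Real.sinh w) ^ 2 := by
    rw [h3] at h2
    nlinarith
  rw [h4, Real.sqrt_sq (by positivity)]

theorem wh2_eq {M : ℕ} [NeZero M] (k : Sp M) :
    wh2 k = sL (fun j => 2 * Real.pi / (M : ℝ) * (ir k j : ℝ)) := by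
  unfold wh2 sL
  refine Finset.sum_congr rfl fun j _ => ?_
  congr 2
  have hM : (M : ℝ) ≠ 0 := by exact_mod_cast NeZero.ne M
  have h1 : ∃ n : ℤ, ((k j).val : ℤ) = (k j).valMinAbs + n * M := by
    have h2 : (((k j).val : ℤ) : ZMod M) = (((k j).valMinAbs : ℤ) : ZMod M) := by
      rw [ZMod.coe_valMinAbs]
      simp
    rw [ZMod.intCast_eq_intCast_iff_dvd_sub] at h2
    obtain ⟨n, hn⟩ := h2
    exact ⟨-n, by linear_combination -hn⟩
  obtain ⟨n, hn⟩ := h1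
  have hn' : ((k j).val : ℝ) = ((k j).valMinAbs : ℝ) + n * M := by exact_mod_cast hn
  have h3 : ang k j = 2 * Real.pi / (M : ℝ) * (ir k j : ℝ) + n * (2 * Real.pi) := by
    unfold ang ir
    rw [hn']
    field_simp
  rw [h3, Real.cos_add_int_mul_two_pi]

theorem af_l3 : S_L3 := by
  intro hEN hS hW hRS
  obtain ⟨c, CE, hc, hCE, hen⟩ := hEN
  obtain ⟨C1, hC1⟩ := hS
  obtain ⟨C2, hC2⟩ := hW
  obtain ⟨x, hx⟩ := hRS hL 5 cont_hL (fun x hx h0 => bd_hL hx h0)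
  refine ⟨-x, ?_⟩
  have key : ∀ L : ℕ, |(∑ k ∈ nz (L + 2), FW (L + 2) (en k)) / ((L + 2 : ℕ) : ℝ) ^ 4 +
      1 / ((L + 2 : ℕ) : ℝ) ^ 3 * ∑ k ∈ nz (L + 2),
        hL (fun j => 2 * Real.pi / ((L + 2 : ℕ) : ℝ) * (ir k j : ℝ))| ≤
      |C2| * C1 / ((L + 2 : ℕ) : ℝ) := by
    intro L
    obtain ⟨M, hM⟩ : ∃ M : ℕ, M = L + 2 := ⟨_, rfl⟩
    haveI : NeZero M := ⟨by omega⟩
    have hM2 : 2 ≤ M := by omega
    have hM0 : (0 : ℝ) < M := by exact_mod_cast (by omega : 0 < M)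
    have main : |(∑ k ∈ nz M, FW M (en k)) / (M : ℝ) ^ 4 +
        1 / (M : ℝ) ^ 3 * ∑ k ∈ nz M, hL (fun j => 2 * Real.pi / (M : ℝ) * (ir k j : ℝ))| ≤
        |C2| * C1 / (M : ℝ) := by
      have e1 : (∑ k ∈ nz M, FW M (en k)) / (M : ℝ) ^ 4 +
          1 / (M : ℝ) ^ 3 * ∑ k ∈ nz M, hL (fun j => 2 * Real.pi / (M : ℝ) * (ir k j : ℝ)) =
          (∑ k ∈ nz M, (FW M (en k) +
            M * hL (fun j => 2 * Real.pi / (M : ℝ) * (ir k j : ℝ)))) / (M : ℝ) ^ 4 := by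
        rw [Finset.sum_add_distrib, ← Finset.mul_sum]
        field_simp
      rw [e1, abs_div, abs_of_pos (by positivity : (0 : ℝ) < (M : ℝ) ^ 4)]
      have h2 : ∀ k ∈ nz M, |FW M (en k) +
          M * hL (fun j => 2 * Real.pi / (M : ℝ) * (ir k j : ℝ))| ≤ |C2| * (1 / en k ^ 2) := by
        intro k hk
        have hk0 : k ≠ 0 := (Finset.mem_filter.1 hk).2
        obtain ⟨a1, a2, a3, a4, -⟩ := hen M hM2 k hk0
        have h3 := hC2 M hM2 (en k) a1 a3 a2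
        have h4 : hL (fun j => 2 * Real.pi / (M : ℝ) * (ir k j : ℝ)) =
            1 / (2 * Real.sinh (en k)) := by
          unfold hL
          rw [← wh2_eq k, ← sinh_eq a1 a4]
        rw [h4, mul_one_div]
        refine h3.trans ?_
        rw [mul_one_div]
        exact div_le_div_of_nonneg_right (le_abs_self _) (by positivity)
      have h5 : |∑ k ∈ nz M, (FW M (en k) +
          M * hL (fun j => 2 * Real.pi / (M : ℝ) * (ir k j : ℝ)))| ≤
          |C2| * (C1 * (M : ℝ) ^ 3) := by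
        refine (Finset.abs_sum_le_sum_abs _ _).trans ((Finset.sum_le_sum h2).trans ?_)
        rw [← Finset.mul_sum]
        exact mul_le_mul_of_nonneg_left (hC1 M hM2).2.1 (abs_nonneg _)
      refine (div_le_div_of_nonneg_right h5 (by positivity)).trans (le_of_eq ?_)
      field_simp
    subst hM
    exact main
  have herr : Tendsto (fun L : ℕ => (∑ k ∈ nz (L + 2), FW (L + 2) (en k)) /
      ((L + 2 : ℕ) : ℝ) ^ 4 + 1 / ((L + 2 : ℕ) : ℝ) ^ 3 * ∑ k ∈ nz (L + 2),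
        hL (fun j => 2 * Real.pi / ((L + 2 : ℕ) : ℝ) * (ir k j : ℝ))) atTop (𝓝 0) := by
    refine squeeze_zero_norm key ?_
    have h1 : Tendsto (fun L : ℕ => ((L + 2 : ℕ) : ℝ)) atTop atTop :=
      tendsto_natCast_atTop_atTop.comp (tendsto_add_atTop_nat 2)
    exact tendsto_const_nhds.div_atTop h1
  have h := herr.sub hx
  rw [zero_sub] at h
  refine h.congr fun L => ?_
  ring

end Pool.Agent.Y681.AF
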